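import Pool.Agent.Q152.CC.Stm2

/-!
# Project CC, job ANN: the order of the kernel of the multiplication by `u` modulo `T` (helper121)
-/

set_option autoImplicit false

namespace Pool.Agent.Q121.CC.Ann

open Finset Pool.Agent.Y692.QS
open Pool.Agent.Q152.CC

/-- the ideal generated by `u` as an additive group -/
def idl (u : Ei) : AddSubgroup Ei := (AddMonoidHom.mulLeft u).range

theorem mulLeft_inj {u : Ei} (hu : u ≠ 0) : Function.Injective (AddMonoidHom.mulLeft u) := by
  intro a b hab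
  exact mul_left_cancel₀ hu hab

theorem idl_mul (u v : Ei) (hu : u ≠ 0) : (idl (u * v)).index = (idl v).index * (idl u).index := by
  have h1 : idl (u * v) = (idl v).map (AddMonoidHom.mulLeft u) := by
    ext x
    simp only [idl, AddMonoidHom.mem_range, AddSubgroup.mem_map, AddMonoidHom.coe_mulLeft]
    constructor
    · rintro ⟨y, rfl⟩
      exact ⟨v * y, ⟨y, rfl⟩, (mul_assoc u v y).symm⟩
    · rintro ⟨z, ⟨y, rfl⟩, rfl⟩
      exact ⟨y, mul_assoc u v y⟩
  have h2 : idl u = (⊤ : AddSubgroup Ei).map (AddMonoidHom.mulLeft u) := by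
    rw [idl, AddMonoidHom.range_eq_map]
  have h3 : idl (u * v) ≤ idl u := by
    rw [h1, h2]
    exact AddSubgroup.map_mono le_top
  have h4 := AddSubgroup.relIndex_mul_index h3
  have h5 : (idl (u * v)).relIndex (idl u) = (idl v).index := by
    rw [h1, h2, AddSubgroup.relIndex_map_map_of_injective _ _ (mulLeft_inj hu), AddSubgroup.relIndex_top_right]
  rw [← h4, h5]

theorem idl_star (u : Ei) : (idl (star u)).index = (idl u).index := by
  have h1 : idl (star u) = (idl u).map (starAddEquiv : Ei ≃+ Ei).toAddMonoidHom := by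
    ext x
    simp only [idl, AddMonoidHom.mem_range, AddSubgroup.mem_map, AddMonoidHom.coe_mulLeft,
      AddEquiv.toAddMonoidHom_eq_coe, AddMonoidHom.coe_coe, starAddEquiv_apply]
    constructor
    · rintro ⟨y, rfl⟩
      exact ⟨u * star y, ⟨star y, rfl⟩, by rw [star_mul, star_star, mul_comm]⟩
    · rintro ⟨z, ⟨y, rfl⟩, rfl⟩
      exact ⟨star y, by rw [star_mul, mul_comm]⟩
  rw [h1]
  exact AddSubgroup.index_map_equiv _ (starAddEquiv : Ei ≃+ Ei)

/-- reduction modulo `T` -/
def pi (T : ℕ) : Ei →+ ZMod T × ZMod T where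
  toFun z := ((z.re : ZMod T), (z.im : ZMod T))
  map_zero' := by simp
  map_add' a b := by simp

theorem pi_surj (T : ℕ) : Function.Surjective (pi T) := by
  rintro ⟨a, b⟩
  obtain ⟨x, rfl⟩ := ZMod.intCast_surjective a
  obtain ⟨y, rfl⟩ := ZMod.intCast_surjective b
  exact ⟨⟨x, y⟩, rfl⟩

theorem pi_zero (T : ℕ) (α : Ei) : pi T α = 0 ↔ ((T : ℤ) : Ei) ∣ α := by
  rw [int_dvd, ← ZMod.intCast_zmod_eq_zero_iff_dvd, ← ZMod.intCast_zmod_eq_zero_iff_dvd]
  show ((α.re : ZMod T), (α.im : ZMod T)) = ((0 : ZMod T), (0 : ZMod T)) ↔ _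
  rw [Prod.mk.injEq]

theorem idl_nat (T : ℕ) (hT : 1 ≤ T) : (idl ((T : ℤ) : Ei)).index = T ^ 2 := by
  haveI : NeZero T := ⟨by omega⟩
  have h1 : idl ((T : ℤ) : Ei) = (pi T).ker := by
    ext x
    rw [AddMonoidHom.mem_ker, pi_zero]
    simp only [idl, AddMonoidHom.mem_range, AddMonoidHom.coe_mulLeft]
    exact ⟨fun ⟨y, hy⟩ => ⟨y, hy.symm⟩, fun ⟨y, hy⟩ => ⟨y, hy.symm⟩⟩
  rw [h1, AddSubgroup.index_ker, AddMonoidHom.range_eq_top.2 (pi_surj T), AddSubgroup.card_top, Nat.card_prod,
    Nat.card_zmod, sq]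

theorem idl_nr (u : Ei) (hu : u ≠ 0) : ((idl u).index : ℤ) = nr u := by
  have h0 : nr u ≠ 0 := fun h => hu (nr_zero_iff.1 h)
  have hpos : 0 < nr u := lt_of_le_of_ne (nr_nonneg u) h0.symm
  obtain ⟨n, hn⟩ := Int.eq_ofNat_of_zero_le (nr_nonneg u)
  have hn1 : 1 ≤ n := by omega
  have h1 := idl_mul u (star u) hu
  rw [mul_star, hn, idl_star, idl_nat n hn1, ← sq] at h1
  have h2 : (idl u).index = n := (Nat.pow_left_injective (n := 2) (by norm_num) h1).symm
  rw [h2, hn]

/-- multiplication by `u` modulo `T` -/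
def mu (T : ℕ) (u : Ei) : ZMod T × ZMod T →+ ZMod T × ZMod T where
  toFun z := ((u.re : ZMod T) * z.1 - (u.im : ZMod T) * z.2,
    (u.re : ZMod T) * z.2 + (u.im : ZMod T) * z.1 - (u.im : ZMod T) * z.2)
  map_zero' := by simp
  map_add' a b := by
    ext
    · simp only [Prod.fst_add, Prod.snd_add]
      ring
    · simp only [Prod.fst_add, Prod.snd_add]
      ring

theorem pi_mul (T : ℕ) (u z : Ei) : pi T (u * z) = mu T u (pi T z) := by
  ext
  · simp only [pi, mu, AddMonoidHom.coe_mk, ZeroHom.coe_mk, mul_re]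
    push_cast
    ring
  · simp only [pi, mu, AddMonoidHom.coe_mk, ZeroHom.coe_mk, mul_im]
    push_cast
    ring

theorem an_eq (T : ℕ) (hT : 1 ≤ T) (i j : ℤ) : an T i j = Nat.card (mu T (uu i j)).ker := by
  classical
  haveI : NeZero T := ⟨by omega⟩
  have h1 : Nat.card (mu T (uu i j)).ker =
      (univ.filter fun z : ZMod T × ZMod T => mu T (uu i j) z = 0).card := by
    rw [Nat.card_eq_fintype_card, ← Fintype.card_subtype]
    exact Fintype.card_congr (Equiv.subtypeEquivRight fun z => AddMonoidHom.mem_ker)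
  rw [h1]
  unfold an
  refine Finset.card_nbij' (fun t => ((t.1 : ZMod T), (t.2 : ZMod T))) (fun z => (z.1.val, z.2.val)) ?_ ?_ ?_ ?_
  · intro t ht
    simp only [coe_filter, mem_product, mem_range, Set.mem_setOf_eq, mem_univ, true_and] at ht ⊢
    have h2 := (pi_zero T _).2 ht.2
    rw [pi_mul] at h2
    have h3 : pi T (⟨(t.1 : ℤ), (t.2 : ℤ)⟩ : Ei) = ((t.1 : ZMod T), (t.2 : ZMod T)) := by
      simp [pi]
    rw [h3] at h2
    exact h2
  · intro z hz
    simp only [coe_filter, mem_product, mem_range, Set.mem_setOf_eq, mem_univ, true_and] at hz ⊢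
    refine ⟨⟨ZMod.val_lt _, ZMod.val_lt _⟩, (pi_zero T _).1 ?_⟩
    rw [pi_mul]
    have h3 : pi T (⟨(z.1.val : ℤ), (z.2.val : ℤ)⟩ : Ei) = z := by
      simp [pi]
    rw [h3]
    exact hz
  · intro t ht
    simp only [coe_filter, mem_product, mem_range, Set.mem_setOf_eq] at ht
    simp only [ZMod.val_natCast_of_lt ht.1.1, ZMod.val_natCast_of_lt ht.1.2]
  · intro z _
    simp

theorem ann : S_ANN := by
  intro T i j hT
  haveI : NeZero T := ⟨by omega⟩
  rw [an_eq T hT]
  have hc : Nat.card (ZMod T × ZMod T) = T ^ 2 := by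
    rw [Nat.card_prod, Nat.card_zmod, sq]
  constructor
  · rw [← hc]
    exact AddSubgroup.card_addSubgroup_dvd_card _
  · by_cases hu : uu i j = 0
    · rw [hu]
      have : nr (0 : Ei) = 0 := nr_zero_iff.2 rfl
      rw [this]
      exact dvd_zero _
    · have h1 : Nat.card (mu T (uu i j)).ker = (mu T (uu i j)).range.index := by
        have h2 := AddSubgroup.card_mul_index (mu T (uu i j)).ker
        have h3 := AddSubgroup.card_mul_index (mu T (uu i j)).range
        rw [AddSubgroup.index_ker] at h2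
        have h4 : 0 < Nat.card (mu T (uu i j)).range := Nat.card_pos
        have h5 : Nat.card (mu T (uu i j)).range * (mu T (uu i j)).range.index =
            Nat.card (mu T (uu i j)).range * Nat.card (mu T (uu i j)).ker := by
          rw [h3, ← h2, mul_comm]
        exact (Nat.eq_of_mul_eq_mul_left h4 h5).symm
      have h6 : ((mu T (uu i j)).range.comap (pi T)).index = (mu T (uu i j)).range.index :=
        AddSubgroup.index_comap_of_surjective _ (pi_surj T)
      have h7 : idl (uu i j) ≤ (mu T (uu i j)).range.comap (pi T) := by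
        rintro x ⟨y, rfl⟩
        rw [AddSubgroup.mem_comap, AddMonoidHom.coe_mulLeft, pi_mul]
        exact ⟨pi T y, rfl⟩
      have h8 := AddSubgroup.index_dvd_of_le h7
      rw [h1, ← h6, ← idl_nr _ hu]
      exact_mod_cast h8

end Pool.Agent.Q121.CC.Ann
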