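import Pool.Agent.Q62.CC.Sto

/-!
# Project CC (helper62), job CUA: the angle function on the cut space
-/

set_option autoImplicit false

open Set Filter Topology MeasureTheory

namespace Pool.Agent.Q121.CC

open Pool.Agent.Q62.CC

theorem norm_mk (a b : ℝ) : ‖(⟨a, b⟩ : ℂ)‖ = √(a ^ 2 + b ^ 2) := by
  rw [Complex.norm_eq_sqrt_sq_add_sq]

theorem t_CUA (hp1 : S_ARG) : S_CUA := by
  intro d j k hjk
  obtain ⟨h1, h2, -⟩ := hp1 d j k hjk
  refine ⟨h1, h2.continuousOn, fun x _ => ?_, fun x _ => ?_⟩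
  · have h := Complex.norm_mul_cos_arg (⟨x j, x k⟩ : ℂ)
    rw [norm_mk] at h
    exact h.symm
  · have h := Complex.norm_mul_sin_arg (⟨x j, x k⟩ : ℂ)
    rw [norm_mk] at h
    exact h.symm

end Pool.Agent.Q121.CC
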