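import Pool.Agent.Q62.CC.Stn

/-!
# Project CC (helper62), job GRR: representation by the Green function
-/

set_option autoImplicit false

open Set Filter Topology MeasureTheory

namespace Pool.Agent.Q121.CC

open Pool.Agent.Q62.CC

theorem const_of_zero {a b : ℝ} {f : ℝ → ℝ}
    (h : ∀ x ∈ Icc a b, HasDerivWithinAt f 0 (Icc a b) x) : ∀ x ∈ Icc a b, f x = f a := by
  refine constant_of_has_deriv_right_zero (fun x hx => (h x hx).continuousWithinAt) fun x hx => ?_
  exact (h x (Ico_subset_Icc_self hx)).mono_of_mem_nhdsWithin (Icc_mem_nhdsGE_of_mem hx)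

theorem t_GRR (hp1 : S_GRD) : S_GRR := by
  intro α β F F1 F2 hab hF hF1 hc hFa hFb x hx
  obtain ⟨G', hG, hG', hGa, hGb⟩ := hp1 α β F2 hab hc
  have hαm : α ∈ Icc α β := left_mem_Icc.2 hab.le
  have hβm : β ∈ Icc α β := right_mem_Icc.2 hab.le
  have hK : ∀ x ∈ Icc α β, F1 x + G' x = F1 α + G' α := by
    have h1 : ∀ x ∈ Icc α β, HasDerivWithinAt (fun x => F1 x + G' x) 0 (Icc α β) x := by
      intro x hx
      have h := (hF1 x hx).add (hG' x hx)
      rw [add_neg_cancel] at h
      exact h
    exact const_of_zero h1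
  set c := F1 α + G' α with hcdef
  have h2 : ∀ x ∈ Icc α β, HasDerivWithinAt
      (fun x => F x + (∫ y in Icc α β, Gr α β x y * F2 y) - c * (x - α)) 0 (Icc α β) x := by
    intro x hx
    have h3 : HasDerivWithinAt (fun x : ℝ => c * (x - α)) (c * 1) (Icc α β) x :=
      (((hasDerivAt_id x).sub_const α).const_mul c).hasDerivWithinAt
    have h := ((hF x hx).add (hG x hx)).sub h3
    rw [hK x hx, mul_one, sub_self] at h
    exact h
  have h3 := const_of_zero h2
  have e0 : F α + (∫ y in Icc α β, Gr α β α y * F2 y) - c * (α - α) = 0 := by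
    rw [hFa, hGa]; ring
  have h4 := h3 β hβm
  have h5 := h3 x hx
  rw [e0] at h4 h5
  rw [hFb, hGb] at h4
  have h6 : c = 0 := by
    have h7 : c * (β - α) = 0 := by linarith
    exact (mul_eq_zero.1 h7).resolve_right (by linarith)
  rw [h6] at h5
  linarith

end Pool.Agent.Q121.CC
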