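import Pool.Agent.Q152.CC.Stm

/-!
# Project CC, job XMU (helper121)
-/

set_option autoImplicit false

namespace Pool.Agent.Q121.CC

open Finset MeasureTheory Pool.Agent.Y692.QS
open Pool.Agent.Q152.CC

theorem xmu (kmu : S_KMU) (kap : S_KAP) : S_XMU := by
  classical
  refine ⟨?_, ?_, ?_⟩
  · intro α m n hm hn
    unfold xi
    rw [kmu m n α (by omega) (by omega), map_mul, Nat.cast_mul]
    by_cases h1 : IsCoprime (nr α) (m : ℤ)
    · by_cases h2 : IsCoprime (nr α) (n : ℤ)
      · rw [if_pos (IsCoprime.mul_right_iff.2 ⟨h1, h2⟩), if_pos h1, if_pos h2]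
      · rw [if_neg (fun h => h2 (IsCoprime.mul_right_iff.1 h).2), if_neg h2, mul_zero]
    · rw [if_neg (fun h => h1 (IsCoprime.mul_right_iff.1 h).1), if_neg h1, zero_mul]
  · intro α β n hn hα hβ
    unfold xi
    rw [nr_mul]
    by_cases h1 : IsCoprime (nr α) (n : ℤ)
    · by_cases h2 : IsCoprime (nr β) (n : ℤ)
      · rw [if_pos (IsCoprime.mul_left_iff.2 ⟨h1, h2⟩), if_pos h1, if_pos h2,
          (kap n (by omega)).mul α β h1 h2 hα hβ, map_mul]
      · rw [if_neg (fun h => h2 (IsCoprime.mul_left_iff.1 h).2), if_neg h2, mul_zero]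
    · rw [if_neg (fun h => h1 (IsCoprime.mul_left_iff.1 h).1), if_neg h1, zero_mul]
  · intro α n hn hα
    unfold xi
    by_cases h1 : IsCoprime (nr α) (n : ℤ)
    · rw [if_pos h1]
      have h2 := (kap n (by omega)).cube α h1 hα
      have h3 : toC (kn n α) ^ 3 = 1 := by rw [← map_pow, h2, map_one]
      have h4 : ‖toC (kn n α)‖ ^ 3 = 1 := by rw [← norm_pow, h3, norm_one]
      exact le_of_eq ((pow_eq_one_iff_of_nonneg (norm_nonneg _) (by norm_num)).1 h4)
    · rw [if_neg h1, norm_zero]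
      exact zero_le_one

end Pool.Agent.Q121.CC
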